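import Mathlib
import Pool.Agent.Helper84_ID.Chain

set_option autoImplicit false

namespace Pool.Agent.Results.MP_7f399b_lc.LargeAlphabet

/-- For every finite alphabet with at least 16 letters and every nonempty pattern p, the longest
strictly decreasing chain of non-erasing pattern languages from L(x1) down to L(p) has length
exactly 2|p| - (number of distinct variables of p) - 1. -/
theorem result :
    ∀ (Sig : Type) [Fintype Sig], 16 ≤ Fintype.card Sig →
    ∀ L : List (Sig ⊕ ℕ) → Set (List Sig),
      (∀ q : List (Sig ⊕ ℕ), L q =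
        {w : List Sig | ∃ s : ℕ → List Sig, (∀ i, s i ≠ []) ∧
          w = q.flatMap (Sum.elim (fun a : Sig => [a]) s)}) →
    ∀ p : List (Sig ⊕ ℕ), p ≠ [] →
      (∃ c : ℕ → List (Sig ⊕ ℕ),
          L (c 0) = L [Sum.inr 0] ∧
          L (c (2 * p.length - (p.filterMap Sum.getRight?).toFinset.card - 1)) = L p ∧
          ∀ i < 2 * p.length - (p.filterMap Sum.getRight?).toFinset.card - 1,
            L (c (i + 1)) ⊂ L (c i)) ∧
      ∀ m : ℕ, ∀ c : ℕ → List (Sig ⊕ ℕ),
        L (c 0) = L [Sum.inr 0] → L (c m) = L p →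
        (∀ i < m, L (c (i + 1)) ⊂ L (c i)) →
        m ≤ 2 * p.length - (p.filterMap Sum.getRight?).toFinset.card - 1 := by
  intro Sig _ h16 L hL p hp
  have hL' : L = Helper84ID.Lang := by
    funext q
    rw [hL q]
    rfl
  subst hL'
  exact Helper84ID.depth h16 p hp

end Pool.Agent.Results.MP_7f399b_lc.LargeAlphabet
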